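import Mathlib

/-!
# Unambiguous thrifty branching programs for the evaluation of layered graphs

A layered graph of fan-in two is given by two functions `l r : ℕ → ℕ → ℕ`: its nodes are the pairs
`(n, v)`, where `n` is the height; the leaves are the nodes `(0, v)`, and the children of the node
`(n + 1, v)` are `(n, l n v)` and `(n, r n v)`. For example `l n v = 2 * v`, `r n v = 2 * v + 1` give
the complete binary trees, and `l n v = v`, `r n v = v + 1` the pyramids.
-/

namespace Pool.Agent.J4H24.TD

/-- The input variables, with values in `Fin k`: one for each leaf `(0, v)`, and the `k²` entries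
(indexed by `a, b`) of a table for each node `(n + 1, v)`. -/
inductive Var (k : ℕ) where
  | leaf (v : ℕ) : Var k
  | node (n v : ℕ) (a b : Fin k) : Var k

/-- The value of the node `(n, v)` on the input `f`. -/
def val {k : ℕ} (l r : ℕ → ℕ → ℕ) (f : Var k → Fin k) : ℕ → ℕ → Fin k
  | 0, v => f (Var.leaf v)
  | n + 1, v => f (Var.node n v (val l r f n (l n v)) (val l r f n (r n v)))

/-- The nodes of the graph below the root `(h, 0)`. -/
inductive Below (l r : ℕ → ℕ → ℕ) (h : ℕ) : ℕ → ℕ → Prop
  | root : Below l r h h 0
  | left {n v : ℕ} : Below l r h (n + 1) v → Below l r h n (l n v)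
  | right {n v : ℕ} : Below l r h (n + 1) v → Below l r h n (r n v)

/-- A nondeterministic `k`-way branching program with state set `Q`: a state is final, with an
output, or it queries one variable; a computation then follows any edge which carries the value of
this variable. -/
structure NBP (k : ℕ) (Q : Type) where
  start : Q
  out : Q → Option (Fin k)
  query : Q → Var k
  edge : Q → Fin k → Q → Prop

/-- `Comp P f q L c`: on the input `f` there is a computation which starts in the state `q`, then
visits the states in the list `L` in this order, and ends in a final state with output `c`. -/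
inductive Comp {k : ℕ} {Q : Type} (P : NBP k Q) (f : Var k → Fin k) :
    Q → List Q → Fin k → Prop
  | stop {q : Q} {c : Fin k} : P.out q = some c → Comp P f q [] c
  | step {q q' : Q} {L : List Q} {c : Fin k} : P.out q = none →
      P.edge q (f (P.query q)) q' → Comp P f q' L c → Comp P f q (q' :: L) c

/-- `P` computes the value of the root `(h, 0)`, and it is unambiguous: on every input exactly one
computation ends in a final state, and its output is right. -/
def Solves {k : ℕ} {Q : Type} (P : NBP k Q) (l r : ℕ → ℕ → ℕ) (h : ℕ) : Prop :=
  ∀ f, ∃ L, Comp P f P.start L (val l r f h 0) ∧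
    ∀ L' c, Comp P f P.start L' c → L' = L ∧ c = val l r f h 0

/-- `P` is thrifty: every computation which ends in a final state queries only leaves below the
root, and tables of nodes below the root at the values of their two children. -/
def Thrifty {k : ℕ} {Q : Type} (P : NBP k Q) (l r : ℕ → ℕ → ℕ) (h : ℕ) : Prop :=
  ∀ f L c, Comp P f P.start L c → ∀ q ∈ P.start :: L, P.out q = none →
    (∃ v, Below l r h 0 v ∧ P.query q = Var.leaf v) ∨
    ∃ n v, Below l r h (n + 1) v ∧
      P.query q = Var.node n v (val l r f n (l n v)) (val l r f n (r n v))

end Pool.Agent.J4H24.TD
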