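import Pool.Agent.J4H24.TD.Main
import Pool.Agent.J4H24.TE.Lev
import Pool.Agent.J4H24.TE.Ap

/-!
# The two bounds
-/

namespace Pool.Agent.J4H24.TD

open Real
open Pool.Agent.J4H24.TE (Codes exists_codes strip_codes NS NS_le)

/-- **Small unambiguous thrifty programs for small heights.** -/
theorem te_behrend (l r : ℕ → ℕ → ℕ) (h k : ℕ) (hk : 2 ≤ k) : ∃ (Q : Type) (_ : Fintype Q) (P : NBP k Q),
    Thrifty P l r h ∧ Solves P l r h ∧ (Fintype.card Q : ℝ) ≤
      (k : ℝ) ^ 5 * Real.exp (100 * (h + 1) * (√(Real.log k) + (h + 1))) := by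
  obtain ⟨S, Nn, hN0, hS, hB, hM, hlog⟩ := exists_codes hk
  have hmono : ∀ a b, a ≤ b → Nn a ≤ Nn b := monotone_nat_of_le_succ hM
  have hC : Codes k (fun d x s => x + S d s) (fun d x s => x + 2 * S d s) Nn := by
    refine ⟨?_, ?_, ?_, hM, ?_, by omega⟩
    · intro d x x' s t s' _ _ hs ht hs' h1 h2
      obtain ⟨e1, e2⟩ := hS (d + 1) s t s' hs ht hs' (by omega)
      rw [e1, e2] at h1
      exact ⟨by omega, e1.symm⟩
    · intro d x s hx hs
      have := hB d s hs x hx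
      omega
    · intro d x s hx hs
      exact hB d s hs x hx
    · intro x x' _ _ e
      omega
  obtain ⟨Q, hQ, P, h1, h2, h3⟩ := td_gen l r (h := h) hk hC
  refine ⟨Q, hQ, P, h1, h2, ?_⟩
  set K := Nn (h + 1) with hKdef
  have hkK : k ≤ K := by rw [← hN0]; exact hmono _ _ (by omega)
  have hK : 0 < K := by omega
  have hK0 : (0 : ℝ) < K := by exact_mod_cast hK
  have hk1 : (1 : ℝ) ≤ k := by exact_mod_cast (by omega : 1 ≤ k)
  have hk0' : (0 : ℝ) < k := by linarith
  have hl0 : 0 ≤ Real.log k := Real.log_nonneg hk1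
  set z := √(Real.log k) with hz
  have hz0 : 0 ≤ z := Real.sqrt_nonneg _
  have hz2 : z ^ 2 = Real.log k := Real.sq_sqrt hl0
  have hKl : Real.log K ≤ (z + 5 * (h + 1)) ^ 2 := by
    have h1 := hlog (h + 1)
    push_cast at h1
    have h2 : 0 ≤ Real.log K := Real.log_nonneg (by exact_mod_cast hK)
    have h3 : Real.log K = √(Real.log K) ^ 2 := (Real.sq_sqrt h2).symm
    rw [h3]
    exact pow_le_pow_left₀ (Real.sqrt_nonneg _) h1 2
  have hKe : (K : ℝ) ≤ Real.exp ((z + 5 * (h + 1)) ^ 2) := by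
    rw [← Real.log_le_iff_le_exp hK0]
    exact hKl
  have h4 : (2 : ℝ) * 4 ^ h ≤ Real.exp (4 * (h + 1)) := by
    have h5 : (4 : ℝ) ≤ Real.exp 4 := by
      have := Real.add_one_le_exp (4 : ℝ); linarith
    have h6 : (2 : ℝ) * 4 ^ h ≤ 4 ^ (h + 1) := by
      rw [pow_succ]
      have : (0 : ℝ) < 4 ^ h := by positivity
      linarith
    have h7 : (4 : ℝ) ^ (h + 1) ≤ Real.exp 4 ^ (h + 1) := pow_le_pow_left₀ (by norm_num) h5 _
    have h8 : Real.exp 4 ^ (h + 1) = Real.exp (4 * (h + 1)) := by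
      rw [← Real.exp_nat_mul]
      congr 1
      push_cast
      ring
    rw [← h8]
    exact h6.trans h7
  have hk3 : (k : ℝ) ^ 3 = Real.exp (3 * z ^ 2) := by
    rw [hz2, mul_comm, ← Real.rpow_def_of_pos hk0']
    norm_cast
  have h3' : (Fintype.card Q : ℝ) ≤ 2 * 4 ^ h * ((K : ℝ) ^ 3 * (k * k)) := by
    exact_mod_cast h3
  calc (Fintype.card Q : ℝ) ≤ 2 * 4 ^ h * ((K : ℝ) ^ 3 * (k * k)) := h3'
    _ ≤ Real.exp (4 * (h + 1)) * (Real.exp ((z + 5 * (h + 1)) ^ 2) ^ 3 * (k * k)) := by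
        gcongr
    _ = (k : ℝ) ^ 2 * (Real.exp (4 * (h + 1)) * Real.exp (3 * (z + 5 * (h + 1)) ^ 2)) := by
        rw [← Real.exp_nat_mul]
        push_cast
        ring
    _ = (k : ℝ) ^ 2 * (Real.exp (3 * z ^ 2) *
        Real.exp (4 * (h + 1) + 30 * z * (h + 1) + 75 * (h + 1) ^ 2)) := by
        rw [← Real.exp_add, ← Real.exp_add]
        congr 2
        ring
    _ = (k : ℝ) ^ 5 * Real.exp (4 * (h + 1) + 30 * z * (h + 1) + 75 * (h + 1) ^ 2) := by
        rw [← hk3]; ring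
    _ ≤ (k : ℝ) ^ 5 * Real.exp (100 * (h + 1) * (z + (h + 1))) := by
        apply mul_le_mul_of_nonneg_left _ (by positivity)
        apply Real.exp_le_exp.mpr
        have hh : (0 : ℝ) ≤ h := by positivity
        nlinarith [mul_nonneg hz0 hh]

/-- **Small unambiguous thrifty programs for all heights.** -/
theorem te_strip (l r : ℕ → ℕ → ℕ) (h k : ℕ) (hk : 2 ≤ k) : ∃ (Q : Type) (_ : Fintype Q) (P : NBP k Q),
    Thrifty P l r h ∧ Solves P l r h ∧ (Fintype.card Q : ℝ) ≤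
      Real.exp (2000 * (h + 1 + Real.log k * (1 + Real.log (1 + Real.log k)))) := by
  set w := Nat.clog 2 k with hw
  have hw0 : 0 < w := Nat.clog_pos (by norm_num) hk
  have hkw : k ≤ 2 ^ w := Nat.le_pow_clog (by norm_num) k
  obtain ⟨al, be, hC⟩ := strip_codes (k := k) hw0 hkw
  obtain ⟨Q, hQ, P, h1, h2, h3⟩ := td_gen l r (h := h) hk hC
  refine ⟨Q, hQ, P, h1, h2, ?_⟩
  set K := NS w (h + 1) with hK
  have hKb := NS_le hw0 h
  rw [← hK] at hKb
  have hk2 : (2 : ℝ) ≤ k := by exact_mod_cast hk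
  have hk0 : (0 : ℝ) < k := by linarith
  set lk := Real.log k with hl
  have hl2 : Real.log 2 ≤ lk := Real.log_le_log (by norm_num) hk2
  have hlog2 := Real.log_two_gt_d9
  have hlog2' := Real.log_two_lt_d9
  have hl0 : 0 < lk := by linarith
  have hw1 : (1 : ℝ) ≤ w := by exact_mod_cast hw0
  -- w
  have hwl : (w : ℝ) ≤ 3 * lk := by
    have h4 := Nat.pow_pred_clog_lt_self (b := 2) (by norm_num) (show 1 < k by omega)
    rw [Nat.pred_eq_sub_one, ← hw] at h4
    have h5 : ((2 : ℝ)) ^ (w - 1) ≤ k := by exact_mod_cast h4.le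
    have h6 := Real.log_le_log (by positivity) h5
    rw [Real.log_pow, Nat.cast_sub hw0] at h6
    push_cast at h6
    nlinarith
  have hE0 : 0 ≤ Real.log (1 + lk) := Real.log_nonneg (by linarith)
  have hlog8 : Real.log (8 * (w : ℝ) ^ 2) ≤ 7 * (1 + Real.log (1 + lk)) := by
    rw [Real.log_mul (by norm_num) (by positivity), Real.log_pow]
    have h4 : Real.log 8 = 3 * Real.log 2 := by
      rw [show (8 : ℝ) = 2 ^ 3 by norm_num, Real.log_pow]; norm_num
    have h5 : Real.log w ≤ Real.log (3 * (1 + lk)) :=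
      Real.log_le_log (by linarith) (by linarith)
    rw [Real.log_mul (by norm_num) (by positivity)] at h5
    have h6 : Real.log 3 ≤ 2 := by
      have := Real.log_le_sub_one_of_pos (show (0 : ℝ) < 3 by norm_num)
      linarith
    push_cast
    linarith
  set E := lk * (1 + Real.log (1 + lk)) with hE
  have hE1 : 0 ≤ E := by positivity
  have hKE : (K : ℝ) ≤ Real.exp (336 * E + 32 * h) := by
    refine hKb.trans (Real.exp_le_exp.mpr ?_)
    have h4 : 16 * (w : ℝ) * Real.log (8 * (w : ℝ) ^ 2) ≤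
        16 * (3 * lk) * (7 * (1 + Real.log (1 + lk))) := by
      apply mul_le_mul (by linarith) hlog8 _ (by positivity)
      apply Real.log_nonneg
      nlinarith
    have h5 : 16 * (3 * lk) * (7 * (1 + Real.log (1 + lk))) = 336 * E := by rw [hE]; ring
    linarith
  have h4 : (2 : ℝ) * 4 ^ h ≤ Real.exp (4 * (h + 1)) := by
    have h5 : (4 : ℝ) ≤ Real.exp 4 := by
      have := Real.add_one_le_exp (4 : ℝ); linarith
    have h6 : (2 : ℝ) * 4 ^ h ≤ 4 ^ (h + 1) := by
      rw [pow_succ]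
      have : (0 : ℝ) < 4 ^ h := by positivity
      linarith
    have h7 : (4 : ℝ) ^ (h + 1) ≤ Real.exp 4 ^ (h + 1) := pow_le_pow_left₀ (by norm_num) h5 _
    have h8 : Real.exp 4 ^ (h + 1) = Real.exp (4 * (h + 1)) := by
      rw [← Real.exp_nat_mul]
      congr 1
      push_cast
      ring
    rw [← h8]
    exact h6.trans h7
  have hk3 : (k : ℝ) * k = Real.exp (2 * lk) := by
    have : (k : ℝ) = Real.exp lk := (Real.exp_log hk0).symm
    rw [this, ← Real.exp_add]
    ring_nf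
  have h3' : (Fintype.card Q : ℝ) ≤ 2 * 4 ^ h * ((K : ℝ) ^ 3 * (k * k)) := by
    exact_mod_cast h3
  calc (Fintype.card Q : ℝ) ≤ 2 * 4 ^ h * ((K : ℝ) ^ 3 * (k * k)) := h3'
    _ ≤ Real.exp (4 * (h + 1)) * (Real.exp (336 * E + 32 * h) ^ 3 * Real.exp (2 * lk)) := by
        rw [hk3]; gcongr
    _ = Real.exp (4 * (h + 1) + (3 * (336 * E + 32 * h) + 2 * lk)) := by
        rw [← Real.exp_nat_mul, ← Real.exp_add, ← Real.exp_add]
        push_cast
        ring_nf
    _ ≤ Real.exp (2000 * (h + 1 + E)) := by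
        apply Real.exp_le_exp.mpr
        have h5 : lk ≤ E := by
          rw [hE]
          nlinarith
        have hh : (0 : ℝ) ≤ h := by positivity
        nlinarith

/-- **Both bounds.** -/
theorem te_final (l r : ℕ → ℕ → ℕ) (h k : ℕ) (hk : 2 ≤ k) : ∃ (Q : Type) (_ : Fintype Q) (P : NBP k Q),
    Thrifty P l r h ∧ Solves P l r h ∧ (Fintype.card Q : ℝ) ≤
      min (Real.exp (2000 * (h + 1 + Real.log k * (1 + Real.log (1 + Real.log k)))))
        ((k : ℝ) ^ 5 * Real.exp (100 * (h + 1) * (√(Real.log k) + (h + 1)))) := by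
  rcases le_total (Real.exp (2000 * (h + 1 + Real.log k * (1 + Real.log (1 + Real.log k)))))
    ((k : ℝ) ^ 5 * Real.exp (100 * (h + 1) * (√(Real.log k) + (h + 1)))) with hc | hc
  · obtain ⟨Q, hQ, P, h1, h2, h3⟩ := te_strip l r h k hk
    exact ⟨Q, hQ, P, h1, h2, by rw [min_eq_left hc]; exact h3⟩
  · obtain ⟨Q, hQ, P, h1, h2, h3⟩ := te_behrend l r h k hk
    exact ⟨Q, hQ, P, h1, h2, by rw [min_eq_right hc]; exact h3⟩

end Pool.Agent.J4H24.TD
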