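import Pool.Agent.J4H24.TD.Uni

/-!
# The program
-/

namespace Pool.Agent.J4H24.TD

open Pool.Agent.J4H24.TE (Codes OpR UsR)

open Real

variable {k : ℕ} [NeZero k]

/-- The states: time, registers, guesses. -/
abbrev St (k K T : ℕ) := Fin (T + 1) × (Fin 3 → Fin K) × Fin k × Fin k

/-- The guesses are `(0, 0)` if they are not needed. -/
def NormS : List Ins → Fin k × Fin k → Prop
  | Ins.lf _ _ _ _ :: _, g => g = (0, 0)
  | Ins.nd _ _ _ _ _ :: _, _ => True
  | [], g => g = (0, 0)

open Classical in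
/-- The program with the list `L` of instructions. -/
noncomputable def prog (al be : ℕ → ℕ → ℕ → ℕ) (Nn : ℕ → ℕ) (K : ℕ) (hK : 0 < K) (L : List Ins) :
    NBP k (St k K L.length) where
  start := (0, fun _ => ⟨0, hK⟩, 0, 0)
  out := fun q => if hq : q.1.val = L.length ∧ ∃ c : Fin k, (q.2.1 0 : ℕ) = al 0 c 0 then
    some hq.2.choose else none
  query := fun q => if hq : q.1.val < L.length then qv L[q.1.val] q.2.2.1 q.2.2.2 else Var.leaf 0
  edge := fun q c q' => NormS (L.drop q'.1.val) q'.2.2 ∧ ∃ hq : q.1.val < L.length,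
    q'.1.val = q.1.val + 1 ∧
    StepR al be Nn L[q.1.val] q.2.2.1 q.2.2.2 c (fun j => (q.2.1 j : ℕ)) (fun j => (q'.2.1 j : ℕ))

variable {al be : ℕ → ℕ → ℕ → ℕ} {Nn : ℕ → ℕ} {K : ℕ} {hK : 0 < K} {L : List Ins} {f : Var k → Fin k}

/-- The contents of the registers in a state. -/
def rg {T : ℕ} (q : St k K T) : Fin 3 → ℕ := fun j => (q.2.1 j : ℕ)

lemma comp_run {q : St k K L.length} {Lq : List (St k K L.length)} {c : Fin k}
    (hC : Comp (prog al be Nn K hK L) f q Lq c) (hN : NormS (L.drop q.1.val) q.2.2) :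
    ∃ G p', TRun al be Nn K f (L.drop q.1.val) G (Lq.map rg) (rg q) p' ∧
      NormG (L.drop q.1.val) G ∧ (q :: Lq).map (fun s => s.2.2) = G ++ [(0, 0)] ∧
      p' 0 = al 0 c 0 ∧ ∀ s ∈ q :: Lq, (prog al be Nn K hK L).out s = none →
        (prog al be Nn K hK L).query s ∈ qs (L.drop q.1.val) G := by
  classical
  induction hC with
  | @stop q c hq =>
    have hq' : (if hq : q.1.val = L.length ∧ ∃ c : Fin k, (q.2.1 0 : ℕ) = al 0 c 0 then
      some hq.2.choose else none) = some c := hq
    split_ifs at hq' with h1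
    have h2 := h1.2.choose_spec
    have h3 : h1.2.choose = c := Option.some.inj hq'
    rw [h3] at h2
    have h4 : L.drop q.1.val = [] := by rw [h1.1]; exact List.drop_length
    rw [h4] at hN ⊢
    refine ⟨[], rg q, ⟨rfl, rfl, rfl⟩, trivial, ?_, h2, ?_⟩
    · have hN0 : q.2.2 = (0, 0) := hN
      simp [hN0]
    · intro s hs ho
      rw [List.mem_singleton] at hs
      rw [hs, hq] at ho
      exact absurd ho (by simp)
  | @step q q' L' c hq he _ ih =>
    obtain ⟨hN', hlt, h4, h5⟩ := he
    obtain ⟨G, p', h1, h2, h3, h8, h9⟩ := ih hN'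
    have h6 : L.drop q.1.val = L[q.1.val] :: L.drop (q.1.val + 1) := List.drop_eq_getElem_cons hlt
    have h7 : (prog al be Nn K hK L).query q = qv L[q.1.val] q.2.2.1 q.2.2.2 := by
      show (if hq : q.1.val < L.length then qv L[q.1.val] q.2.2.1 q.2.2.2 else Var.leaf 0) = _
      rw [dif_pos hlt]
    rw [h7] at h5
    rw [h4] at h1 h2 h9
    refine ⟨q.2.2 :: G, p', ?_, ?_, ?_, h8, ?_⟩
    · rw [h6]
      exact ⟨q.2.2, G, rg q', L'.map rg, rfl, rfl, fun j => (q'.2.1 j).isLt, h5, h1⟩
    · rw [h6] at hN ⊢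
      cases hI : L[q.1.val] with
      | lf v i o d =>
        rw [hI] at hN
        exact ⟨hN, h2⟩
      | nd n v i o d => exact h2
    · rw [List.map_cons, h3]; rfl
    · intro s hs ho
      rw [h6, qs]
      rw [List.mem_cons] at hs
      rcases hs with hs | hs
      · rw [hs, h7]
        exact List.mem_cons_self
      · exact List.mem_cons_of_mem _ (h9 s hs ho)

/-- The states of a computation are determined by the registers and the guesses. -/
lemma comp_eq {q : St k K L.length} {Lq : List (St k K L.length)} {c : Fin k}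
    (hC : Comp (prog al be Nn K hK L) f q Lq c) : ∀ (q' : St k K L.length)
    (Lq' : List (St k K L.length)) (c' : Fin k), q'.1 = q.1 →
    Comp (prog al be Nn K hK L) f q' Lq' c' → Lq'.map rg = Lq.map rg →
    Lq'.map (fun s => s.2.2) = Lq.map (fun s => s.2.2) → Lq' = Lq := by
  induction hC with
  | @stop q c hq =>
    intro q' Lq' c' _ _ h1 _
    simpa using h1
  | @step q q₁ L' c hq he _ ih =>
    intro q' Lq' c' h0 hC' h1 h2
    cases hC' with
    | stop _ => simp at h1
    | @step _ q₂ L₂ _ hq' he' hC₂ =>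
      obtain ⟨_, _, e1, _⟩ := he
      obtain ⟨_, _, e2, _⟩ := he'
      rw [List.map_cons, List.map_cons, List.cons.injEq] at h1 h2
      have h3 : q₂.1 = q₁.1 := Fin.ext (by rw [e1, e2, h0])
      have h4 := ih q₂ L₂ c' h3 hC₂ h1.2 h2.2
      have h5 : q₂.2.1 = q₁.2.1 := by
        funext j
        exact Fin.ext (congrFun h1.1 j)
      have h6 : q₂ = q₁ := Prod.ext h3 (Prod.ext h5 h2.1)
      rw [h6, h4]

lemma run_comp (hS : Codes k al be Nn) (c : Fin k) : ∀ (m t : ℕ) (ht : t + m = L.length)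
    (G : List (Fin k × Fin k)) (p : Fin 3 → ℕ) (p' : Fin 3 → ℕ) (hp : ∀ j, p j < K) (x y : Fin k),
    Run al be Nn K f (L.drop t) G p p' → NormG (L.drop t) G → p' 0 = al 0 c 0 →
    (m = 0 ∨ G.head? = some (x, y)) →
    ∃ Lq, Comp (prog al be Nn K hK L) f (⟨t, by omega⟩, fun j => ⟨p j, hp j⟩, x, y) Lq c := by
  classical
  intro m
  induction m with
  | zero =>
    intro t ht G p p' hp x y hr _ h0 _
    have htT : t = L.length := by omega
    have h4 : L.drop t = [] := by rw [htT]; exact List.drop_length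
    rw [h4] at hr
    cases G with
    | cons g G => exact hr.elim
    | nil =>
      have e : p = p' := hr
      subst e
      refine ⟨[], Comp.stop ?_⟩
      have hq : (⟨t, by omega⟩ : Fin (L.length + 1)).val = L.length ∧
          ∃ c : Fin k, ((⟨p 0, hp 0⟩ : Fin K) : ℕ) = al 0 c 0 := ⟨htT, c, h0⟩
      show (if hq : (⟨t, by omega⟩ : Fin (L.length + 1)).val = L.length ∧
          ∃ c : Fin k, ((⟨p 0, hp 0⟩ : Fin K) : ℕ) = al 0 c 0 then
        some hq.2.choose else none) = some c
      rw [dif_pos hq]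
      have h5 := hq.2.choose_spec
      have h6 : ((⟨p 0, hp 0⟩ : Fin K) : ℕ) = al 0 c 0 := h0
      congr 1
      apply Fin.ext
      exact hS.inj0 _ _ (Fin.isLt _) (Fin.isLt _) (h5.symm.trans h6)
  | succ m ih =>
    intro t ht G p p' hp x y hr hn h0 hG
    have hlt : t < L.length := by omega
    have h6 : L.drop t = L[t] :: L.drop (t + 1) := List.drop_eq_getElem_cons hlt
    rw [h6] at hr hn
    cases G with
    | nil => exact hr.elim
    | cons g G =>
      rcases hG with hG | hG
      · omega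
      · have hg : g = (x, y) := by simpa using hG
        subst hg
        obtain ⟨p₁, hb, hs, hr'⟩ := hr
        have hn' : NormG (L.drop (t + 1)) G := by
          cases hI : L[t] with
          | lf v i o d => rw [hI] at hn; exact hn.2
          | nd n v i o d => rw [hI] at hn; exact hn
        have key : ∃ x' y' : Fin k, (m = 0 ∨ G.head? = some (x', y')) ∧
            NormS (L.drop (t + 1)) (x', y') := by
          cases G with
          | cons g G =>
            refine ⟨g.1, g.2, Or.inr rfl, ?_⟩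
            rcases hd : L.drop (t + 1) with _ | ⟨I, L'⟩
            · rw [hd] at hr'
              exact hr'.elim
            · cases I with
              | lf v i o d => rw [hd] at hn'; exact hn'.1
              | nd n v i o d => trivial
          | nil =>
            rcases hd : L.drop (t + 1) with _ | ⟨I, L'⟩
            · have := List.drop_eq_nil_iff.mp hd
              exact ⟨0, 0, Or.inl (by omega), rfl⟩
            · rw [hd] at hr'
              exact hr'.elim
        obtain ⟨x', y', hxy, hNS⟩ := key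
        obtain ⟨Lq, hC⟩ := ih (t + 1) (by omega) G p₁ p' hb x' y' hr' hn' h0 hxy
        refine ⟨_, Comp.step ?_ ?_ hC⟩
        · show (if hq : (⟨t, by omega⟩ : Fin (L.length + 1)).val = L.length ∧
            ∃ c : Fin k, ((⟨p 0, hp 0⟩ : Fin K) : ℕ) = al 0 c 0 then
              some hq.2.choose else none) = none
          rw [dif_neg]
          rintro ⟨h, _⟩
          have : t = L.length := h
          omega
        · have h7 : (prog al be Nn K hK L).query (⟨t, by omega⟩, fun j => ⟨p j, hp j⟩, x, y) =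
              qv L[t] x y := by
            show (if hq : t < L.length then qv L[t] x y else Var.leaf 0) = _
            rw [dif_pos hlt]
          rw [h7]
          exact ⟨hNS, hlt, rfl, hs⟩

end Pool.Agent.J4H24.TD

namespace Pool.Agent.J4H24.TD

open Pool.Agent.J4H24.TE (Codes OpR UsR)

open Real

lemma norm_start {k : ℕ} [NeZero k] (l r : ℕ → ℕ → ℕ) : ∀ (n v : ℕ) (i : Fin 3) (o : Bool) (d : ℕ)
    (L : List Ins), NormS (k := k) (sq l r n v i o d ++ L) (0, 0)
  | 0, v, i, o, d, L => rfl
  | n + 1, v, i, o, d, L => by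
      rw [sq, List.append_assoc]
      exact norm_start l r n _ _ _ _ _

/-- **The program of a system of codes.** -/
theorem td_gen (l r : ℕ → ℕ → ℕ) {h k : ℕ} (hk : 2 ≤ k) {al be : ℕ → ℕ → ℕ → ℕ} {Nn : ℕ → ℕ}
    (hS : Codes k al be Nn) : ∃ (Q : Type) (_ : Fintype Q) (P : NBP k Q),
    Thrifty P l r h ∧ Solves P l r h ∧ Fintype.card Q ≤ 2 * 4 ^ h * ((Nn (h + 1)) ^ 3 * (k * k)) := by
  have hk0 : NeZero k := ⟨by omega⟩
  have hmono : ∀ a b, a ≤ b → Nn a ≤ Nn b := monotone_nat_of_le_succ hS.mono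
  set K := Nn (h + 1) with hKdef
  have hK : 0 < K := lt_of_lt_of_le hS.pos (hmono _ _ (by omega))
  set L := sq l r h 0 0 true 0 with hL
  have hst : NormS (k := k) (L.drop (prog (k := k) al be Nn K hK L).start.1.val)
      (prog (k := k) al be Nn K hK L).start.2.2 := by
    have := norm_start (k := k) l r h 0 0 true 0 []
    rw [List.append_nil] at this
    exact this
  refine ⟨St k K L.length, inferInstance, prog al be Nn K hK L, ?_, ?_, ?_⟩
  · -- thrifty
    intro f Lq c hC q hq ho
    obtain ⟨G, p', h1, _, _, _, h3⟩ := comp_run hC hst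
    have h1' : TRun al be Nn K f (sq l r h 0 0 true 0) G (Lq.map rg) (fun _ => 0) p' := h1
    have h4 : (prog al be Nn K hK L).query q ∈ qs (sq l r h 0 0 true 0) G := h3 q hq ho
    exact (sound (h := h) hS h 0 0 true 0 G _ p' Below.root (trun_run _ _ _ _ _ h1')).1 _ h4
  · intro f
    obtain ⟨G, p', h1, ⟨h2, _, h2'⟩, h3, _⟩ := complete (K := K) (f := f) hS h 0 0 true 0
      (fun _ => 0) (al 0 (val l r f h 0) 0) (by rw [hKdef, Nat.zero_add])
      ⟨fun _ => ⟨hS.pos, rfl⟩, fun e => by simp at e⟩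
      (lt_of_lt_of_le hS.pos (hS.mono 0)) (lt_of_lt_of_le hS.pos (hS.mono 0))
    obtain ⟨Lq, hC⟩ := run_comp (hK := hK) (L := L) hS (val l r f h 0) L.length 0 (Nat.zero_add _) G
      (fun _ => 0) p' (fun _ => hK) 0 0 h1 h2' h3 (Or.inr h2)
    have hC' : Comp (prog al be Nn K hK L) f (prog al be Nn K hK L).start Lq (val l r f h 0) := hC
    refine ⟨Lq, hC', ?_⟩
    intro L' c hL'
    obtain ⟨G₁, p₁, a1, a2, a3, a4, _⟩ := comp_run hC' hst
    obtain ⟨G₂, p₂, b1, b2, b3, b4, _⟩ := comp_run hL' hst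
    have a1' : TRun al be Nn K f (sq l r h 0 0 true 0) G₁ (Lq.map rg) (fun _ => 0) p₁ := a1
    have b1' : TRun al be Nn K f (sq l r h 0 0 true 0) G₂ (L'.map rg) (fun _ => 0) p₂ := b1
    obtain ⟨u1, u2, u3⟩ := uniq (h := h) (l := l) (r := r) hS h 0 0 true 0 G₂ G₁ _ _ _ _ _ Below.root (by simp)
      b1' a1' b2 a2
    constructor
    · apply comp_eq hC' _ _ _ rfl hL' u2
      rw [u1, ← a3, List.map_cons, List.map_cons, List.cons.injEq] at b3
      exact b3.2
    · have h4 := ((sound (h := h) hS h 0 0 true 0 G₂ _ p₂ Below.root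
        (trun_run _ _ _ _ _ b1')).2.1.1 rfl).2
      exact Fin.ext (hS.inj0 _ _ (Fin.isLt _) (Fin.isLt _) (b4.symm.trans h4))
  · -- size
    have hc : Fintype.card (St k K L.length) = (L.length + 1) * (K ^ 3 * (k * k)) := by
      simp [St, Fintype.card_prod]
    rw [hc]
    exact Nat.mul_le_mul_right _ (sq_length l r h 0 0 true 0)

end Pool.Agent.J4H24.TD
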