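import Pool.Agent.J4H24.TD.Defs
import Pool.Agent.J4H24.TE.Seq

/-!
# The sequence of queries, with three coded registers
-/

namespace Pool.Agent.J4H24.TD

open Pool.Agent.J4H24.TE (Codes OpR UsR fin3 j1 j2 j3 j4 k1 k2 k3 use_right)

variable {k : ℕ}

/-- The instructions: query of a leaf or of the table of an inner node `v`, with the operation
`o` (encode or decode, with the code of level `d`) on the register `i`. -/
inductive Ins where
  | lf (v : ℕ) (i : Fin 3) (o : Bool) (d : ℕ) : Ins
  | nd (n v : ℕ) (i : Fin 3) (o : Bool) (d : ℕ) : Ins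

/-- The queried variable. -/
def qv : Ins → Fin k → Fin k → Var k
  | Ins.lf v _ _ _, _, _ => Var.leaf v
  | Ins.nd n v _ _ _, x, y => Var.node n v x y

/-- One step. -/
def StepR (al be : ℕ → ℕ → ℕ → ℕ) (Nn : ℕ → ℕ) : Ins → Fin k → Fin k → Fin k → (Fin 3 → ℕ) →
    (Fin 3 → ℕ) → Prop
  | Ins.lf _ i o d, _, _, c, p, p' => OpR al be Nn o d c (p i) (p' i) ∧
      p' (i + 1) = p (i + 1) ∧ p' (i + 2) = p (i + 2)
  | Ins.nd _ _ i o d, x, y, c, p, p' => OpR al be Nn o d c (p i) (p' i) ∧
      UsR al be Nn (d + 1) x (p (i + 1)) (p' (i + 1)) ∧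
      UsR al be Nn (d + 1) y (p (i + 2)) (p' (i + 2))

/-- The sequence of instructions for the node `(n, v)`. -/
def sq (l r : ℕ → ℕ → ℕ) : ℕ → ℕ → Fin 3 → Bool → ℕ → List Ins
  | 0, v, i, o, d => [Ins.lf v i o d]
  | n + 1, v, i, o, d =>
      sq l r n (l n v) (i + 1) true (d + 1) ++ (sq l r n (r n v) (i + 2) true (d + 1) ++
        (Ins.nd n v i o d :: (sq l r n (r n v) (i + 2) false (d + 1) ++
          sq l r n (l n v) (i + 1) false (d + 1))))

lemma sq_length (l r : ℕ → ℕ → ℕ) : ∀ n v i o d, (sq l r n v i o d).length + 1 ≤ 2 * 4 ^ n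
  | 0, v, i, o, d => by simp [sq]
  | n + 1, v, i, o, d => by
      have h1 := sq_length l r n (l n v) (i + 1) true (d + 1)
      have h2 := sq_length l r n (r n v) (i + 2) true (d + 1)
      have h3 := sq_length l r n (r n v) (i + 2) false (d + 1)
      have h4 := sq_length l r n (l n v) (i + 1) false (d + 1)
      simp only [sq, List.length_append, List.length_cons]
      rw [pow_succ]
      omega

/-- Runs on the input `f`, with registers below `K`; the list of the guesses is given. -/
def Run (al be : ℕ → ℕ → ℕ → ℕ) (Nn : ℕ → ℕ) (K : ℕ) (f : Var k → Fin k) :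
    List Ins → List (Fin k × Fin k) → (Fin 3 → ℕ) → (Fin 3 → ℕ) → Prop
  | [], [], p, p' => p = p'
  | I :: L, g :: G, p, p' => ∃ p₁, (∀ j, p₁ j < K) ∧ StepR al be Nn I g.1 g.2 (f (qv I g.1 g.2)) p p₁ ∧
      Run al be Nn K f L G p₁ p'
  | [], _ :: _, _, _ => False
  | _ :: _, [], _, _ => False

variable {al be : ℕ → ℕ → ℕ → ℕ} {Nn : ℕ → ℕ} {K : ℕ} {f : Var k → Fin k} {l r : ℕ → ℕ → ℕ}

lemma run_split : ∀ (L₁ L₂ : List Ins) (G : List (Fin k × Fin k)) (p p' : Fin 3 → ℕ),
    Run al be Nn K f (L₁ ++ L₂) G p p' → ∃ G₁ G₂ p₁, G = G₁ ++ G₂ ∧ L₁.length = G₁.length ∧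
      Run al be Nn K f L₁ G₁ p p₁ ∧ Run al be Nn K f L₂ G₂ p₁ p'
  | [], L₂, G, p, p', h => ⟨[], G, p, rfl, rfl, rfl, h⟩
  | I :: L₁, L₂, [], p, p', h => h.elim
  | I :: L₁, L₂, g :: G, p, p', h => by
      obtain ⟨p₂, h1, h2, h3⟩ := h
      obtain ⟨G₁, G₂, p₁, e, hl, h4, h5⟩ := run_split L₁ L₂ G p₂ p' h3
      exact ⟨g :: G₁, G₂, p₁, by rw [e]; rfl, by simp [hl], ⟨p₂, h1, h2, h4⟩, h5⟩

lemma run_join : ∀ (L₁ L₂ : List Ins) (G₁ G₂ : List (Fin k × Fin k)) (p p₁ p' : Fin 3 → ℕ),
    Run al be Nn K f L₁ G₁ p p₁ → Run al be Nn K f L₂ G₂ p₁ p' → Run al be Nn K f (L₁ ++ L₂) (G₁ ++ G₂) p p'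
  | [], L₂, [], G₂, p, p₁, p', h, h' => by
      have e : p = p₁ := h
      rw [e]; exact h'
  | [], _, _ :: _, _, _, _, _, h, _ => h.elim
  | _ :: _, _, [], _, _, _, _, h, _ => h.elim
  | I :: L₁, L₂, g :: G₁, G₂, p, p₁, p', h, h' => by
      obtain ⟨p₂, h1, h2, h3⟩ := h
      exact ⟨p₂, h1, h2, run_join L₁ L₂ G₁ G₂ p₂ p₁ p' h3 h'⟩

/-- The variables queried. -/
def qs : List Ins → List (Fin k × Fin k) → List (Var k)
  | I :: L, g :: G => qv I g.1 g.2 :: qs L G
  | [], _ => []
  | _ :: _, [] => []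

lemma qs_append : ∀ (L₁ L₂ : List Ins) (G₁ G₂ : List (Fin k × Fin k)),
    L₁.length = G₁.length → qs (L₁ ++ L₂) (G₁ ++ G₂) = qs L₁ G₁ ++ qs L₂ G₂
  | [], L₂, [], G₂, _ => rfl
  | I :: L₁, L₂, g :: G₁, G₂, h => by
      have := qs_append L₁ L₂ G₁ G₂ (by simpa using h)
      simp only [List.cons_append, qs, this]
  | [], _, _ :: _, _, h => by simp at h
  | _ :: _, _, [], _, h => by simp at h

/-- The guesses for the leaves are `(0, 0)`. -/
def NormG [NeZero k] : List Ins → List (Fin k × Fin k) → Prop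
  | Ins.lf _ _ _ _ :: L, g :: G => g = (0, 0) ∧ NormG L G
  | Ins.nd _ _ _ _ _ :: L, _ :: G => NormG L G
  | [], _ => True
  | _ :: _, [] => True

lemma norm_append [NeZero k] : ∀ (L₁ L₂ : List Ins) (G₁ G₂ : List (Fin k × Fin k)),
    L₁.length = G₁.length → (NormG (L₁ ++ L₂) (G₁ ++ G₂) ↔ NormG L₁ G₁ ∧ NormG L₂ G₂)
  | [], L₂, [], G₂, _ => by simp [NormG]
  | Ins.lf _ _ _ _ :: L₁, L₂, g :: G₁, G₂, h => by
      have := norm_append L₁ L₂ G₁ G₂ (by simpa using h)
      simp only [List.cons_append, NormG, this, and_assoc]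
  | Ins.nd _ _ _ _ _ :: L₁, L₂, g :: G₁, G₂, h => by
      have := norm_append L₁ L₂ G₁ G₂ (by simpa using h)
      simp only [List.cons_append, NormG, this]
  | [], _, _ :: _, _, h => by simp at h
  | _ :: _, _, [], _, h => by simp at h

/-- The thrifty queries. -/
def Ok (l r : ℕ → ℕ → ℕ) (h : ℕ) (f : Var k → Fin k) (x : Var k) : Prop :=
  (∃ v, Below l r h 0 v ∧ x = Var.leaf v) ∨
    ∃ n v, Below l r h (n + 1) v ∧ x = Var.node n v (val l r f n (l n v)) (val l r f n (r n v))

/-- **Soundness**: a run queries only at the true values, and does the operation with the true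
value. -/
theorem sound (hS : Codes k al be Nn) {h : ℕ} : ∀ (n v : ℕ) (i : Fin 3)
    (o : Bool) (d : ℕ) (G : List (Fin k × Fin k)) (p p' : Fin 3 → ℕ), Below l r h n v →
    Run al be Nn K f (sq l r n v i o d) G p p' →
    (∀ x ∈ qs (sq l r n v i o d) G, Ok l r h f x) ∧
      OpR al be Nn o d (val l r f n v) (p i) (p' i) ∧
      p' (i + 1) = p (i + 1) ∧ p' (i + 2) = p (i + 2)
  | 0, v, i, o, d, G, p, p', hv, hr => by
      cases G with
      | nil => exact hr.elim
      | cons g G =>
        cases G with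
        | nil =>
          obtain ⟨p₁, _, h1, h2⟩ := hr
          have e : p₁ = p' := h2
          subst e
          refine ⟨?_, h1⟩
          intro x hx
          simp only [sq, qs, List.mem_singleton] at hx
          exact Or.inl ⟨v, hv, hx⟩
        | cons g' G =>
          obtain ⟨p₁, _, h1, h2⟩ := hr
          exact h2.elim
  | n + 1, v, i, o, d, G, p, p', hv, hr => by
      have l1 : Below l r h n (l n v) := Below.left hv
      have l2 : Below l r h n (r n v) := Below.right hv
      obtain ⟨G₁, G', p₁, e1, m1, r1, hr⟩ := run_split _ _ _ _ _ hr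
      obtain ⟨G₂, G'', p₂, e2, m2, r2, hr⟩ := run_split _ _ _ _ _ hr
      cases G'' with
      | nil => exact hr.elim
      | cons g G'' =>
        obtain ⟨p₃, _, h3, hr⟩ := hr
        obtain ⟨G₄, G₅, p₄, e4, m4, r4, r5⟩ := run_split _ _ _ _ _ hr
        obtain ⟨a1, b1, c1, d1⟩ := sound hS n _ _ _ _ _ _ _ l1 r1
        obtain ⟨a2, b2, c2, d2⟩ := sound hS n _ _ _ _ _ _ _ l2 r2
        obtain ⟨a4, b4, c4, d4⟩ := sound hS n _ _ _ _ _ _ _ l2 r4
        obtain ⟨a5, b5, c5, d5⟩ := sound hS n _ _ _ _ _ _ _ l1 r5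
        obtain ⟨h3a, ⟨t, ht, u1, u2⟩, ⟨s, hs, w1, w2⟩⟩ := h3
        -- indices
        have i1 := j1 i
        have i2 := j2 i
        have i3 := j3 i
        have i4 := j4 i
        rw [i1] at c1 c5
        rw [i2] at d1 d5
        rw [i3] at c2 c4
        rw [i4] at d2 d4
        have B1 := b1.1 rfl
        have B2 := b2.1 rfl
        have B4 := b4.2 rfl
        have B5 := b5.2 rfl
        -- the left child
        have L := use_right hS (d := d) (x := val l r f n (l n v)) (x' := g.1) (s := p (i + 1))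
          (t := t) (s' := p' (i + 1)) B1.1 ht B5.1 (by rw [← u1, d2, ← B1.2])
          (by rw [← u2, ← d4, ← B5.2])
        have Rr := use_right hS (d := d) (x := val l r f n (r n v)) (x' := g.2) (s := p₁ (i + 2))
          (t := s) (s' := p₄ (i + 2)) B2.1 hs B4.1 (by rw [← w1, ← B2.2]) (by rw [← w2, ← B4.2])
        have hval : f (qv (Ins.nd n v i o d) g.1 g.2) = val l r f (n + 1) v := by
          show f (Var.node n v g.1 g.2) = _
          rw [L.1, Rr.1]; rfl
        refine ⟨?_, ?_, L.2, ?_⟩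
        · intro x hx
          rw [e1, e2, e4] at hx
          simp only [sq] at hx
          rw [qs_append _ _ _ _ m1, qs_append _ _ _ _ m2, qs, qs_append _ _ _ _ m4] at hx
          simp only [List.mem_append, List.mem_cons] at hx
          rcases hx with hx | hx | hx | hx | hx
          · exact a1 x hx
          · exact a2 x hx
          · refine Or.inr ⟨n, v, hv, ?_⟩
            rw [hx]
            show Var.node n v g.1 g.2 = _
            rw [L.1, Rr.1]
          · exact a4 x hx
          · exact a5 x hx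
        · rw [hval] at h3a
          have e5 : p₂ i = p i := by rw [c2, d1]
          have e6 : p' i = p₃ i := by rw [d5, c4]
          rw [e5] at h3a
          rw [e6]
          exact h3a
        · rw [c5, Rr.2, c1]

/-- **Completeness**: from every admissible content of the registers there is a run. -/
theorem complete [NeZero k] (hS : Codes k al be Nn) : ∀ (n v : ℕ) (i : Fin 3)
    (o : Bool) (d : ℕ) (p : Fin 3 → ℕ) (w0 : ℕ), Nn (d + n + 1) ≤ K →
    OpR al be Nn o d (val l r f n v) (p i) w0 → p (i + 1) < Nn (d + 1) → p (i + 2) < Nn (d + 1) →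
    ∃ G p', Run al be Nn K f (sq l r n v i o d) G p p' ∧ (G.head? = some (0, 0) ∧
      (sq l r n v i o d).length = G.length ∧ NormG (sq l r n v i o d) G) ∧ p' i = w0 ∧
      p' (i + 1) = p (i + 1) ∧ p' (i + 2) = p (i + 2)
  | 0, v, i, o, d, p, w0, hK, ho, h1, h2 => by
      have n1 := k1 i
      have n2 := k2 i
      refine ⟨[(0, 0)], Function.update p i w0, ⟨_, ?_, ?_, rfl⟩, ⟨rfl, rfl, rfl, trivial⟩,
        ?_, ?_, ?_⟩
      · intro j
        have hr : w0 < Nn (d + 1) := by
          cases o with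
          | true =>
            have := ho.1 rfl
            have h3 := hS.bda d _ (p i) (val l r f 0 v).isLt this.1
            rw [this.2]; exact h3
          | false =>
            have := ho.2 rfl
            exact lt_of_lt_of_le this.1 (hS.mono d)
        rcases fin3 i j with e | e | e <;> rw [e]
        · rw [Function.update_self]; exact lt_of_lt_of_le hr hK
        · rw [Function.update_of_ne n1]; exact lt_of_lt_of_le h1 hK
        · rw [Function.update_of_ne n2]; exact lt_of_lt_of_le h2 hK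
      · refine ⟨?_, Function.update_of_ne n1 _ _, Function.update_of_ne n2 _ _⟩
        rw [Function.update_self]; exact ho
      · exact Function.update_self _ _ _
      · exact Function.update_of_ne n1 _ _
      · exact Function.update_of_ne n2 _ _
  | n + 1, v, i, o, d, p, w0, hK, ho, h1, h2 => by
      have i1 := j1 i
      have i2 := j2 i
      have i3 := j3 i
      have i4 := j4 i
      have n1 := k1 i
      have n2 := k2 i
      have n3 := k3 i
      have hK' : Nn (d + 1 + n + 1) ≤ K := by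
        have : d + 1 + n + 1 = d + (n + 1) + 1 := by omega
        rw [this]; exact hK
      have hM1 : Nn (d + 1) ≤ Nn (d + 1 + 1) := hS.mono (d + 1)
      have hri : w0 < Nn (d + 1) ∧ p i < Nn (d + 1) := by
        cases o with
        | true =>
          have := ho.1 rfl
          have h3 := hS.bda d _ (p i) (val l r f (n + 1) v).isLt this.1
          exact ⟨by rw [this.2]; exact h3, lt_of_lt_of_le this.1 (hS.mono d)⟩
        | false =>
          have := ho.2 rfl
          have h3 := hS.bdb d _ w0 (val l r f (n + 1) v).isLt this.1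
          exact ⟨lt_of_lt_of_le this.1 (hS.mono d), by rw [this.2]; exact h3⟩
      set x := val l r f n (l n v) with hx
      set y := val l r f n (r n v) with hy
      have ax := hS.bda (d + 1) _ (p (i + 1)) x.isLt h1
      have bx := hS.bdb (d + 1) _ (p (i + 1)) x.isLt h1
      have by' := hS.bdb (d + 1) _ (p (i + 2)) y.isLt h2
      -- first child, encode
      obtain ⟨G₁, p₁, r1, ⟨g1, l1, m1⟩, q1, q2, q3⟩ := complete hS n (l n v) (i + 1) true (d + 1) p
        (al (d + 1) x (p (i + 1))) hK' ⟨fun _ => ⟨h1, rfl⟩, fun h => by simp at h⟩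
        (by rw [i1]; exact lt_of_lt_of_le h2 hM1) (by rw [i2]; exact lt_of_lt_of_le hri.2 hM1)
      rw [i1] at q2
      rw [i2] at q3
      -- second child, encode
      obtain ⟨G₂, p₂, r2, ⟨g2, l2, m2⟩, s1, s2, s3⟩ := complete hS n (r n v) (i + 2) true (d + 1) p₁
        (al (d + 1) y (p (i + 2))) hK' ⟨fun _ => ⟨by rw [q2]; exact h2, by rw [q2]⟩,
          fun h => by simp at h⟩
        (by rw [i3, q3]; exact lt_of_lt_of_le hri.2 hM1) (by rw [i4, q1]; exact ax)
      rw [i3] at s2
      rw [i4] at s3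
      -- production
      let p₃ : Fin 3 → ℕ := Function.update (Function.update (fun _ => w0) (i + 1)
        (be (d + 1) x (p (i + 1)))) (i + 2) (be (d + 1) y (p (i + 2)))
      have t1 : p₃ i = w0 := by
        simp only [p₃]
        rw [Function.update_of_ne n2.symm, Function.update_of_ne n1.symm]
      have t2 : p₃ (i + 1) = be (d + 1) x (p (i + 1)) := by
        simp only [p₃]
        rw [Function.update_of_ne n3.symm, Function.update_self]
      have t3 : p₃ (i + 2) = be (d + 1) y (p (i + 2)) := by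
        simp only [p₃]
        rw [Function.update_self]
      have hmono : ∀ a b, a ≤ b → Nn a ≤ Nn b := monotone_nat_of_le_succ hS.mono
      have hK1 : Nn (d + 1 + 1) ≤ K := (hmono _ _ (by omega)).trans hK
      have b3 : ∀ j, p₃ j < K := by
        intro j
        rcases fin3 i j with e | e | e <;> rw [e]
        · rw [t1]; exact lt_of_lt_of_le hri.1 (hM1.trans hK1)
        · rw [t2]; exact lt_of_lt_of_le bx hK1
        · rw [t3]; exact lt_of_lt_of_le by' hK1
      have r3 : StepR al be Nn (Ins.nd n v i o d) x y (f (qv (Ins.nd n v i o d) x y)) p₂ p₃ := by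
        refine ⟨?_, ⟨p (i + 1), h1, ?_, t2⟩, ⟨p (i + 2), h2, ?_, t3⟩⟩
        · rw [t1, s2, q3]; exact ho
        · rw [s3, q1]
        · rw [s1]
      -- second child, decode
      obtain ⟨G₄, p₄, r4, ⟨g4, l4, m4⟩, u1, u2, u3⟩ := complete hS n (r n v) (i + 2) false (d + 1) p₃
        (p (i + 2)) hK' ⟨fun h => by simp at h, fun _ => ⟨h2, t3⟩⟩
        (by rw [i3, t1]; exact lt_of_lt_of_le hri.1 hM1) (by rw [i4, t2]; exact bx)
      rw [i3] at u2
      rw [i4] at u3
      -- first child, decode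
      obtain ⟨G₅, p₅, r5, ⟨g5, l5, m5⟩, w1, w2, w3⟩ := complete hS n (l n v) (i + 1) false (d + 1) p₄
        (p (i + 1)) hK' ⟨fun h => by simp at h, fun _ => ⟨h1, by rw [u3, t2]⟩⟩
        (by rw [i1, u1]; exact lt_of_lt_of_le h2 hM1)
        (by rw [i2, u2, t1]; exact lt_of_lt_of_le hri.1 hM1)
      rw [i1] at w2
      rw [i2] at w3
      refine ⟨G₁ ++ (G₂ ++ ((x, y) :: (G₄ ++ G₅))), p₅, ?_, ⟨?_, ?_, ?_⟩, ?_, w1, ?_⟩
      · exact run_join _ _ _ _ _ _ _ r1 (run_join _ _ _ _ _ _ _ r2
          ⟨p₃, b3, r3, run_join _ _ _ _ _ _ _ r4 r5⟩)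
      · cases G₁ with
        | nil => simp at g1
        | cons g G₁ => simpa using g1
      · simp only [sq, List.length_append, List.length_cons, l1, l2, l4, l5]
      · simp only [sq]
        rw [norm_append _ _ _ _ l1, norm_append _ _ _ _ l2, NormG, norm_append _ _ _ _ l4]
        exact ⟨m1, m2, m4, m5⟩
      · rw [w3, u2, t1]
      · rw [w2, u1]

end Pool.Agent.J4H24.TD
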